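import Pool.Agent.Helper49.RU.St

/-! # Project RU, module LBD: lower bounds of short chains. -/

set_option autoImplicit false

namespace Pool.Agent.Helper34.RU

open Pool.Agent.Helper49.RU
open MeasureTheory Filter Topology Complex
open scoped ENNReal Cardinal ComplexConjugate

theorem big_mono {L L' : ℕ} (h : L' ≤ L) {k : ℕ} {Z : Finset (Fin k → Q)} (hZ : Big L Z) :
    Big L' Z := by
  obtain ⟨S, q, h1, h2, h3⟩ := hZ
  refine ⟨S, q, h1, h.trans h2, h3.trans ?_⟩
  refine mul_le_mul_of_nonneg_left ?_ (Nat.cast_nonneg _)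
  refine Real.rpow_le_rpow_of_exponent_le (by norm_num) ?_
  have h4 : (L' : ℝ) ≤ L := by exact_mod_cast h
  exact div_le_div_of_nonneg_left (Nat.cast_nonneg _) (by positivity) (by linarith)

/-- The big codes in late blocks. -/
def YS (j : ℕ) : Set Code := {c | j ≤ c.1 ∧ Big j c.2}

theorem YS_anti {j j' : ℕ} (h : j ≤ j') : YS j' ⊆ YS j :=
  fun _ hc => ⟨h.trans hc.1, big_mono h hc.2⟩

theorem rich_univ : Rich (Set.univ : Set Code) := by
  intro j
  refine ⟨j, le_rfl, Finset.univ, Set.mem_univ _, Finset.univ, fun _ => 0, ?_, ?_, ?_⟩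
  · intro g _ i hi
    exact absurd (Finset.mem_univ i) hi
  · simp
  · have h1 : ((Finset.univ : Finset (Fin j → Q)).card : ℝ) = 9 ^ j := by
      rw [Finset.card_univ, Fintype.card_fun, Fintype.card_fin, Fintype.card_prod, ZMod.card]
      norm_num
    rw [h1, Finset.card_univ, Fintype.card_fin]
    have h2 : (1 : ℝ) ≤ (2 : ℝ) ^ ((j : ℝ) / ((j : ℝ) + 1)) :=
      Real.one_le_rpow (by norm_num) (by positivity)
    have h3 : (0 : ℝ) < 9 ^ j := by positivity
    nlinarith

theorem inf_of_rich {X : Set Code} (hX : Rich X) (m : ℕ) : (X ∩ YS m).Infinite := by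
  intro hfin
  have h1 : ((fun c : Code => c.1) '' (X ∩ YS m)).Finite := hfin.image _
  obtain ⟨N, hN⟩ := h1.bddAbove
  obtain ⟨k, hk, Z, hZ, hB⟩ := hX (max m (N + 1))
  have h2 : k ≤ N := hN ⟨⟨k, Z⟩, ⟨hZ, (le_max_left m (N + 1)).trans hk,
    big_mono (le_max_left m (N + 1)) hB⟩, rfl⟩
  have h3 := (le_max_right m (N + 1)).trans hk
  omega

theorem hLBD : StLBD := by
  intro hP ι X hι hC hAL
  rcases isEmpty_or_nonempty ι with hE | ⟨⟨a0⟩⟩
  · exact ⟨Set.univ, ⟨fun _ _ _ _ _ => Set.mem_univ _, rich_univ⟩, fun i => isEmptyElim i⟩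
  have hinf : Infinite Code :=
    Infinite.of_injective (fun k : ℕ => (⟨k, ∅⟩ : Code)) fun a b h => congrArg Sigma.fst h
  have hcount : Countable Code := inferInstance
  obtain ⟨e⟩ : Nonempty (Code ≃ ℕ) := nonempty_equiv_of_countable
  set F : Set (Set ℕ) := Set.range (fun i => e '' X i) ∪ Set.range (fun j => e '' YS j) with hF
  have hcard : #F < 𝔠 := by
    refine lt_of_le_of_lt (Cardinal.mk_union_le _ _) ?_
    refine Cardinal.add_lt_of_lt Cardinal.aleph0_le_continuum ?_ ?_
    · exact lt_of_le_of_lt Cardinal.mk_range_le hι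
    · refine lt_of_le_of_lt Cardinal.mk_range_le ?_
      rw [Cardinal.mk_nat]
      exact Cardinal.aleph0_lt_continuum
  have hkey : ∀ G : Finset (Set ℕ), (G : Set (Set ℕ)) ⊆ F →
      ∃ (a : ι) (m : ℕ), ∀ A ∈ G, e '' (X a ∩ YS m) ⊆ A := by
    intro G
    induction G using Finset.induction_on with
    | empty => intro _; exact ⟨a0, 0, fun A hA => absurd hA (Finset.notMem_empty A)⟩
    | insert A G _ ih =>
      intro hG
      obtain ⟨a, m, ham⟩ := ih fun B hB => hG (by simp only [Finset.coe_insert]; exact Or.inr hB)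
      have hA : A ∈ F := hG (by simp)
      rcases hA with ⟨i, rfl⟩ | ⟨j, rfl⟩
      · rcases hAL a i with ⟨j0, hj0⟩ | ⟨j0, hj0⟩
        · refine ⟨a, max m j0, fun B hB => ?_⟩
          rcases Finset.mem_insert.1 hB with rfl | hB
          · refine Set.image_mono fun c hc => ?_
            have h1 := YS_anti (le_max_right m j0) hc.2
            exact hj0 c hc.1 h1.1 h1.2
          · refine Set.Subset.trans (Set.image_mono fun c hc => ?_) (ham B hB)
            exact ⟨hc.1, YS_anti (le_max_left m j0) hc.2⟩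
        · refine ⟨i, max m j0, fun B hB => ?_⟩
          rcases Finset.mem_insert.1 hB with rfl | hB
          · exact Set.image_mono fun c hc => hc.1
          · refine Set.Subset.trans (Set.image_mono fun c hc => ?_) (ham B hB)
            have h1 := YS_anti (le_max_right m j0) hc.2
            exact ⟨hj0 c hc.1 h1.1 h1.2, YS_anti (le_max_left m j0) hc.2⟩
      · refine ⟨a, max m j, fun B hB => ?_⟩
        rcases Finset.mem_insert.1 hB with rfl | hB
        · exact Set.image_mono fun c hc => YS_anti (le_max_right m j) hc.2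
        · refine Set.Subset.trans (Set.image_mono fun c hc => ?_) (ham B hB)
          exact ⟨hc.1, YS_anti (le_max_left m j) hc.2⟩
  obtain ⟨P, hPinf, hPfin⟩ := hP F hcard (by
    intro G hG
    obtain ⟨a, m, ham⟩ := hkey G hG
    refine Set.Infinite.mono ?_ ((inf_of_rich (hC a).2 m).image e.injective.injOn)
    intro n hn A hA
    exact ham A hA hn)
  set W0 : Set Code := {c | e c ∈ P} with hW0
  have hW0inf : W0.Infinite := by
    intro hfin
    apply hPinf
    have h1 : P = e '' W0 := by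
      ext n
      constructor
      · intro hn
        exact ⟨e.symm n, by rw [hW0]; simpa using hn, by simp⟩
      · rintro ⟨c, hc, rfl⟩
        exact hc
    rw [h1]
    exact hfin.image _
  have hfinite : ∀ S : Set Code, (P \ e '' S).Finite → (W0 \ S).Finite := by
    intro S hS
    refine Set.Finite.of_finite_image (hS.subset ?_) e.injective.injOn
    rintro _ ⟨c, hc, rfl⟩
    refine ⟨hc.1, ?_⟩
    rintro ⟨d, hd, hde⟩
    have : d = c := e.injective hde
    subst this
    exact hc.2 hd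
  refine ⟨{c | ∃ Z, c.2 ⊆ Z ∧ (⟨c.1, Z⟩ : Code) ∈ W0}, ⟨?_, ?_⟩, ?_⟩
  · rintro k Z Z' hZZ' ⟨Z1, h1, h2⟩
    exact ⟨Z1, hZZ'.trans h1, h2⟩
  · intro j
    have h1 : (W0 \ YS j).Finite := hfinite _ (hPfin _ (Or.inr ⟨j, rfl⟩))
    have h2 : (W0 ∩ YS j).Infinite := by
      intro h3
      apply hW0inf
      refine (h1.union h3).subset ?_
      intro c hc
      by_cases h4 : c ∈ YS j
      · exact Or.inr ⟨hc, h4⟩
      · exact Or.inl ⟨hc, h4⟩
    obtain ⟨c, hc⟩ := h2.nonempty
    exact ⟨c.1, hc.2.1, c.2, ⟨c.2, Finset.Subset.refl _, hc.1⟩, hc.2.2⟩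
  · intro i
    have h1 : (W0 \ X i).Finite := hfinite _ (hPfin _ (Or.inl ⟨i, rfl⟩))
    have h2 : ((fun c : Code => c.1) '' (W0 \ X i)).Finite := h1.image _
    obtain ⟨N, hN⟩ := h2.bddAbove
    refine ⟨N + 1, ?_⟩
    rintro c ⟨Z, hcZ, hZ⟩ hc1 _
    by_contra hcX
    have h3 : (⟨c.1, Z⟩ : Code) ∉ X i := by
      intro h4
      exact hcX ((hC i).1 c.1 Z c.2 hcZ h4)
    have h4 : c.1 ≤ N := hN ⟨⟨c.1, Z⟩, ⟨hZ, h3⟩, rfl⟩
    omega

end Pool.Agent.Helper34.RU
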